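import Pool.Agent.Y19.QT.ML

/-!
# The Lindelöf bound for almost all quadratic twists, on the whole central line, over multiquadratic
# fields

`E : y² = x³ + a x + b` is an elliptic curve over `ℚ`, `K = ℚ(√e_1, …, √e_n)` a multiquadratic field of
degree `2ⁿ` (for `n = 0`: `K = ℚ`), and `E_d` the quadratic twist of `E` over `K` by a squarefree integer
`d`, positive or negative. With the base change `π` to `K` of the automorphic representation of
`PGL₂` over `ℚ` attached to `E` one has `L(E_d / K, s + 1/2) = L(π ⊗ χ_d, s)`, so that the line
`Re s = 1` here is the central line of the problem. `F_d` denotes the `L`-function of `E_d / K` without the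
Euler factors at the places dividing `2 (4a³ + 27b²) d ∏ e_i`. (These factors are `1` at the places
dividing `d` and no other of these numbers; the others are bounded and bounded away from zero on
the central line, uniformly in `d`.)

We prove, without any hypothesis for all `E` with `j`-invariant `0` or `1728` and for all quadratic twists
of `X₀(11)` and `X₀(14)`, and for every elliptic curve over `ℚ` whose quadratic twists are modular:

* `∑_{|d| ≤ X} max_t |F_d(1 + i t)|^(2 / 2ⁿ) / (2 + |t|)^B ≤ C X (log X)^A`;
* for every `β ≥ 0` the inequality `|F_d(1 + i t)| ≤ X^β (2 + |t|)^B` holds for all real `t`, for all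
  squarefree `d`, `|d| ≤ X`, with at most `C X^(1 - 2 β / 2ⁿ) (log X)^A` exceptions;
* for every `k` there is a `k'` such that `|F_d(1 + i t)| ≤ ((log X) (2 + |t|))^k'` for all real `t`, for all
  squarefree `d`, `|d| ≤ X`, with at most `O(X / (log X)^k)` exceptions.

Method: a large sieve inequality for real characters with a loss of a power of `log X` only, the
functional equation of the twists with smooth weights on rotated rays, a maximal inequality for the second
moments on the central line, and the factorisation of `L(E_d / K, s)` with the twists of the divisors of
`∏ e_i` (comparison of Euler products over the ring of integers of `K`).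
-/

set_option autoImplicit false

namespace Pool.Agent.Results.MP_21d687_nt.AlmostAllTwistsMultiquadratic

open Pool.Agent.Y19.QT

/-- **The Lindelöf bound for almost all quadratic twists over multiquadratic fields.** -/
theorem result : (∀ a b : ℤ, Fam a b → MultiLindelofLaw a b) ∧
    ∀ a b : ℤ, 4 * a ^ 3 + 27 * b ^ 2 ≠ 0 → TwistsModular a b → MultiLindelofLaw a b :=
  ⟨fun _ _ h => multiLindelof_fam h, fun _ _ hab h => multiLindelof_modular hab h⟩

end Pool.Agent.Results.MP_21d687_nt.AlmostAllTwistsMultiquadratic
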