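import Pool.Agent.Y19.QT.ML
import Pool.Agent.X35.ZW.Sums

/-!
# The Lindelöf bound on the whole central line for ALL quadratic twists by squarefree `d` with `|d|` near `α v_i`, over multiquadratic fields
-/

set_option autoImplicit false

namespace Pool.Agent.Results.MP_21d687_nt.LindelofNearSequences

open Finset Complex NumberField
open Pool.Agent.Y19.QT (Fam TwistsModular Indep IsLFunK MultiLindelofLaw sqf)

/-- The curves `y² = x³ + a x + b` with `j`-invariant `0` or `1728`, the quadratic twists of `X₀(11)` and `X₀(14)`, and all elliptic curves over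
`ℚ` whose quadratic twists are modular (that is, all of them; the modularity theorem is used only for this third kind, where it is
a hypothesis). -/
def Good (a b : ℤ) : Prop := Fam a b ∨ (4 * a ^ 3 + 27 * b ^ 2 ≠ 0 ∧ TwistsModular a b)

theorem law {a b : ℤ} (h : Good a b) : MultiLindelofLaw a b := by
  rcases h with h | ⟨h1, h2⟩
  · exact Pool.Agent.Y19.QT.multiLindelof_fam h
  · exact Pool.Agent.Y19.QT.multiLindelof_modular h1 h2

/-- the values -/
noncomputable def val (F : ℤ → ℂ → ℂ) (q : ℝ) (B : ℕ) (d : ℤ) (t : ℝ) : ℝ := ‖F d (1 + t * I)‖ ^ q / (2 + |t|) ^ B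

/-- their supremum over `t` -/
noncomputable def top (F : ℤ → ℂ → ℂ) (q : ℝ) (B : ℕ) (d : ℤ) : ℝ := sSup {y : ℝ | Squarefree d ∧ ∃ t : ℝ, y = val F q B d t}

theorem val_nonneg (F : ℤ → ℂ → ℂ) (q : ℝ) (B : ℕ) (d : ℤ) (t : ℝ) : 0 ≤ val F q B d t := by
  unfold val
  positivity

theorem top_nonneg (F : ℤ → ℂ → ℂ) (q : ℝ) (B : ℕ) (d : ℤ) : 0 ≤ top F q B d := by
  apply Real.sSup_nonneg
  rintro y ⟨_, t, rfl⟩
  exact val_nonneg F q B d t

/-- one family -/
theorem one (F : ℤ → ℂ → ℂ) (q : ℝ) (C : ℝ) (A B : ℕ)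
    (hC : ∀ (X : ℕ) (t : ℤ → ℝ), 3 ≤ X → ∑ d ∈ sqf X, ‖F d (1 + t d * I)‖ ^ q / (2 + |t d|) ^ B ≤ C * X * Real.log X ^ A) :
    (∀ d : ℤ, Squarefree d → ∀ t : ℝ, val F q B d t ≤ top F q B d) ∧
    ∀ ε : ℝ, 0 < ε → ∃ C' : ℝ, ∀ N : ℕ, 1 ≤ N →
      ∑ m ∈ Ico N (2 * N), (top F q B (m : ℤ) + top F q B (-(m : ℤ))) ≤ C' * (N : ℝ) ^ (1 + ε) := by
  classical
  have hbdd : ∀ d : ℤ, BddAbove {y : ℝ | Squarefree d ∧ ∃ t : ℝ, y = val F q B d t} := by
    intro d
    refine ⟨C * (max d.natAbs 3 : ℕ) * Real.log (max d.natAbs 3 : ℕ) ^ A, ?_⟩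
    rintro y ⟨hd, t, rfl⟩
    have h1 := hC (max d.natAbs 3) (fun _ => t) (le_max_right _ _)
    refine le_trans ?_ h1
    have hmem : d ∈ sqf (max d.natAbs 3) := by
      rw [Pool.Agent.Y19.QT.mem_sqf]
      refine ⟨?_, hd⟩
      have : (d.natAbs : ℤ) ≤ ((max d.natAbs 3 : ℕ) : ℤ) := by exact_mod_cast le_max_left _ _
      rwa [Int.natCast_natAbs] at this
    exact single_le_sum (f := fun d' => ‖F d' (1 + (t : ℂ) * I)‖ ^ q / (2 + |t|) ^ B) (fun d' _ => by positivity) hmem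
  refine ⟨fun d hd t => le_csSup (hbdd d) ⟨hd, t, rfl⟩, fun ε hε => ?_⟩
  -- near-maximal points
  have hex : ∀ d : ℤ, ∃ t : ℝ, Squarefree d → top F q B d ≤ val F q B d t + 1 := by
    intro d
    by_cases hd : Squarefree d
    · obtain ⟨y, ⟨_, t, rfl⟩, hy⟩ := exists_lt_of_lt_csSup (s := {y : ℝ | Squarefree d ∧ ∃ t : ℝ, y = val F q B d t}) ⟨_, hd, 0, rfl⟩
        (show top F q B d - 1 < sSup {y : ℝ | Squarefree d ∧ ∃ t : ℝ, y = val F q B d t} by
          show top F q B d - 1 < top F q B d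
          linarith)
      exact ⟨t, fun _ => by linarith⟩
    · exact ⟨0, fun h => absurd h hd⟩
  choose t ht using hex
  have hzero : ∀ d : ℤ, ¬ Squarefree d → top F q B d = 0 := by
    intro d hd
    unfold top
    have : {y : ℝ | Squarefree d ∧ ∃ t : ℝ, y = val F q B d t} = ∅ := by
      ext y
      simp only [Set.mem_setOf_eq, Set.mem_empty_iff_false, iff_false]
      exact fun h => hd h.1
    rw [this, Real.sSup_empty]
  have hall : ∀ X : ℕ, 3 ≤ X → ∑ d ∈ Icc (-(X : ℤ)) X, top F q B d ≤ |C| * X * Real.log X ^ A + 3 * X := by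
    intro X hX
    have hX3 : (3 : ℝ) ≤ X := by exact_mod_cast hX
    have hsq : ∀ d ∈ Icc (-(X : ℤ)) X, top F q B d ≤ (if d ∈ sqf X then val F q B d (t d) else 0) + 1 := by
      intro d hd
      by_cases hs : Squarefree d
      · have hmem : d ∈ sqf X := by
          rw [Pool.Agent.Y19.QT.mem_sqf]
          refine ⟨?_, hs⟩
          rw [mem_Icc] at hd
          exact abs_le.2 hd
        rw [if_pos hmem]
        exact ht d hs
      · rw [hzero d hs]
        have : 0 ≤ (if d ∈ sqf X then val F q B d (t d) else 0) := by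
          split_ifs
          · exact val_nonneg _ _ _ _ _
          · exact le_rfl
        linarith
    refine (sum_le_sum hsq).trans ?_
    rw [sum_add_distrib, ← sum_filter, sum_const, nsmul_eq_mul, mul_one, Int.card_Icc]
    have h1 : ∑ d ∈ (Icc (-(X : ℤ)) X).filter (fun d => d ∈ sqf X), val F q B d (t d) ≤ C * X * Real.log X ^ A := by
      refine le_trans (sum_le_sum_of_subset_of_nonneg (fun d hd => (mem_filter.1 hd).2) (fun d _ _ => val_nonneg _ _ _ _ _)) (hC X t hX)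
    have h2 : C * X * Real.log X ^ A ≤ |C| * X * Real.log X ^ A := by
      have : 0 ≤ (X : ℝ) * Real.log X ^ A := by
        have := Real.log_nonneg (show (1 : ℝ) ≤ X by linarith)
        positivity
      calc C * X * Real.log X ^ A = C * (X * Real.log X ^ A) := by ring
        _ ≤ |C| * (X * Real.log X ^ A) := mul_le_mul_of_nonneg_right (le_abs_self C) this
        _ = _ := by ring
    have h3 : (((X : ℤ) + 1 - -(X : ℤ)).toNat : ℝ) ≤ 3 * X := by
      have : (((X : ℤ) + 1 - -(X : ℤ)).toNat : ℝ) = 2 * X + 1 := by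
        have h4 : ((X : ℤ) + 1 - -(X : ℤ)).toNat = 2 * X + 1 := by omega
        rw [h4]
        push_cast
        ring
      rw [this]
      linarith
    linarith
  -- the logarithms
  set K : ℝ := (((A : ℝ) + 1) / ε) ^ A with hK
  have hlog : ∀ X : ℝ, 1 ≤ X → Real.log X ^ A ≤ K * X ^ ε := by
    intro X hX
    have h1 := Real.log_le_rpow_div (show 0 ≤ X by linarith) (show 0 < ε / ((A : ℝ) + 1) by positivity)
    have h2 : X ^ (ε / ((A : ℝ) + 1)) / (ε / ((A : ℝ) + 1)) = ((A : ℝ) + 1) / ε * X ^ (ε / ((A : ℝ) + 1)) := by field_simp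
    rw [h2] at h1
    calc Real.log X ^ A ≤ (((A : ℝ) + 1) / ε * X ^ (ε / ((A : ℝ) + 1))) ^ A := pow_le_pow_left₀ (Real.log_nonneg hX) h1 A
      _ = K * X ^ (ε / ((A : ℝ) + 1) * A) := by
          rw [mul_pow, ← Real.rpow_natCast (X ^ (ε / ((A : ℝ) + 1))) A, ← Real.rpow_mul (by linarith)]
      _ ≤ K * X ^ ε := by
          apply mul_le_mul_of_nonneg_left _ (by positivity)
          apply Real.rpow_le_rpow_of_exponent_le hX
          rw [div_mul_eq_mul_div, div_le_iff₀ (by positivity)]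
          nlinarith
  refine ⟨2 * ((|C| * K + 3) * 3 ^ (1 + ε)), fun N hN => ?_⟩
  have hN1 : (1 : ℝ) ≤ N := by exact_mod_cast hN
  have hX3 : 3 ≤ 3 * N := by omega
  have h1 := hall (3 * N) hX3
  have hinj : ∀ s : ℤ, |s| = 1 → ∑ m ∈ Ico N (2 * N), top F q B (s * (m : ℤ)) ≤ ∑ d ∈ Icc (-((3 * N : ℕ) : ℤ)) ((3 * N : ℕ) : ℤ), top F q B d := by
    intro s hs
    have hs0 : s ≠ 0 := by
      rintro rfl
      simp at hs
    rw [← sum_image (f := fun d => top F q B d) (g := fun m : ℕ => s * (m : ℤ)) (by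
      intro m _ m' _ hmm
      simp only at hmm
      have := mul_left_cancel₀ hs0 hmm
      exact_mod_cast this)]
    apply sum_le_sum_of_subset_of_nonneg
    · intro d hd
      rw [mem_image] at hd
      obtain ⟨m, hm, rfl⟩ := hd
      rw [mem_Ico] at hm
      rw [mem_Icc, ← abs_le, abs_mul, hs, one_mul, Nat.abs_cast]
      exact_mod_cast (show m ≤ 3 * N by omega)
    · intro d _ _
      exact top_nonneg _ _ _ _
  have h2 := hinj 1 (by norm_num)
  have h3 := hinj (-1) (by norm_num)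
  have e : ∑ m ∈ Ico N (2 * N), (top F q B (m : ℤ) + top F q B (-(m : ℤ))) =
      ∑ m ∈ Ico N (2 * N), top F q B (1 * (m : ℤ)) + ∑ m ∈ Ico N (2 * N), top F q B (-1 * (m : ℤ)) := by
    rw [← sum_add_distrib]
    apply sum_congr rfl
    intro m _
    rw [one_mul, neg_one_mul]
  rw [e]
  have h4 : |C| * ((3 * N : ℕ) : ℝ) * Real.log ((3 * N : ℕ) : ℝ) ^ A + 3 * ((3 * N : ℕ) : ℝ) ≤ (|C| * K + 3) * 3 ^ (1 + ε) * (N : ℝ) ^ (1 + ε) := by
    push_cast
    set X : ℝ := 3 * N with hX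
    have hX1 : 1 ≤ X := by linarith
    have h5 := hlog X hX1
    have h6 : (1 : ℝ) ≤ X ^ ε := Real.one_le_rpow hX1 hε.le
    have h7 : X * X ^ ε = X ^ (1 + ε) := by rw [Real.rpow_add (by linarith), Real.rpow_one]
    have h8 : X ^ (1 + ε) = 3 ^ (1 + ε) * (N : ℝ) ^ (1 + ε) := Real.mul_rpow (by norm_num) (by linarith)
    calc |C| * X * Real.log X ^ A + 3 * X ≤ |C| * X * (K * X ^ ε) + 3 * (X * X ^ ε) := by
          have h9 : |C| * X * Real.log X ^ A ≤ |C| * X * (K * X ^ ε) := mul_le_mul_of_nonneg_left h5 (by positivity)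
          have h10 : X ≤ X * X ^ ε := le_mul_of_one_le_right (by linarith) h6
          linarith
      _ = (|C| * K + 3) * (X * X ^ ε) := by ring
      _ = (|C| * K + 3) * 3 ^ (1 + ε) * (N : ℝ) ^ (1 + ε) := by rw [h7, h8]; ring
  linarith

/-- Let `K = ℚ(√e_1, ..., √e_n)` be a multiquadratic field of degree `2ⁿ` (`K = ℚ` for `n = 0`), `v_i ≥ 1` with `∑ v_i ^ (-t) < ∞` for all
`t > τ` (`τ ≥ 0`; for example `v_i = 2 ^ i`, `τ = 0`), `0 ≤ θ < 1` and `0 ≤ β ≤ 1`. There are a set `E` of reals of Hausdorff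
dimension at most `(1 - β + τ) / (1 - θ)` and numbers `B(a, b)` with the following property. For every real `α > 0` outside `E` and ALL elliptic
curves `y² = x³ + a x + b` with `j`-invariant `0` or `1728`, all twists of `X₀(11)` and `X₀(14)`, and all curves with modular twists: if
`F_d` is the `L`-function over `K` of the quadratic twist by the squarefree integer `d` (central line `Re s = 1`), then for all `i ≥ i₀`, all
finite sets `S` of squarefree `d` with `||d| - α v_i| ≤ v_i ^ θ` and all real numbers `t_d`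
`∑_{d ∈ S} |F_d(1 + i t_d)| ^ (2 / 2ⁿ) / (2 + |t_d|) ^ B ≤ v_i ^ β`.
In particular `|F_d(1 + i t)| ≤ v_i ^ (2ⁿ β / 2) (2 + |t|) ^ (2ⁿ B / 2)` for ALL these `d` and all real `t`. -/
theorem result (n : ℕ) (e : Fin n → ℤ) (he : Indep e) (K : Type) [Field K] [NumberField K] (x : Fin n → K) (hx : ∀ i, x i ^ 2 = (e i : K))
    (hadj : IntermediateField.adjoin ℚ (Set.range x) = ⊤) (v : ℕ → ℝ) (τ θ β : ℝ) (hv1 : ∀ i, 1 ≤ v i) (hτ : 0 ≤ τ) (hθ0 : 0 ≤ θ)
    (hθ : θ < 1) (hv : ∀ t : ℝ, τ < t → Summable (fun i => v i ^ (-t))) (hβ0 : 0 ≤ β) (hβ : β ≤ 1) :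
    ∃ (B : ℤ → ℤ → ℕ) (E : Set ℝ), dimH E ≤ ENNReal.ofReal ((1 - β + τ) / (1 - θ)) ∧
      ∀ α : ℝ, 0 < α → α ∉ E → ∀ a b : ℤ, Good a b →
        ∀ F : ℤ → ℂ → ℂ, (∀ d : ℤ, Squarefree d → IsLFunK K (a * d ^ 2) (b * d ^ 3) (∏ i, e i) (F d)) →
          ∃ i₀ : ℕ, ∀ i : ℕ, i₀ ≤ i → ∀ (S : Finset ℤ) (t : ℤ → ℝ), (∀ d ∈ S, Squarefree d ∧ |(|(d : ℝ)|) - α * v i| ≤ v i ^ θ) →
            ∑ d ∈ S, ‖F d (1 + t d * I)‖ ^ ((2 : ℝ) / 2 ^ n) / (2 + |t d|) ^ (B a b) ≤ v i ^ β := by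
  classical
  set q : ℝ := (2 : ℝ) / 2 ^ n with hq
  -- one curve
  have hone : ∀ ab : ℤ × ℤ, ∃ (B : ℕ) (E : Set ℝ), dimH E ≤ ENNReal.ofReal ((1 - β + τ) / (1 - θ)) ∧ ∀ α : ℝ, 0 < α → α ∉ E → Good ab.1 ab.2 →
      ∀ F : ℤ → ℂ → ℂ, (∀ d : ℤ, Squarefree d → IsLFunK K (ab.1 * d ^ 2) (ab.2 * d ^ 3) (∏ i, e i) (F d)) →
        ∃ i₀ : ℕ, ∀ i : ℕ, i₀ ≤ i → ∀ (S : Finset ℤ) (t : ℤ → ℝ), (∀ d ∈ S, Squarefree d ∧ |(|(d : ℝ)|) - α * v i| ≤ v i ^ θ) →
          ∑ d ∈ S, ‖F d (1 + t d * I)‖ ^ q / (2 + |t d|) ^ B ≤ v i ^ β := by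
    rintro ⟨a, b⟩
    by_cases hg : Good a b
    · obtain ⟨huniq, hlaw⟩ := law hg n e he K x hx hadj
      -- the functions
      have hex : ∀ d : ℤ, ∃ G : ℂ → ℂ, Squarefree d → IsLFunK K (a * d ^ 2) (b * d ^ 3) (∏ i, e i) G := by
        intro d
        by_cases hd : Squarefree d
        · obtain ⟨G, hG, _⟩ := huniq d hd
          exact ⟨G, fun _ => hG⟩
        · exact ⟨0, fun h => absurd h hd⟩
      choose F₀ hF₀ using hex
      obtain ⟨⟨C, A, B, hC, _⟩, _⟩ := hlaw F₀ hF₀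
      obtain ⟨h1, h2⟩ := one F₀ q C A B hC
      obtain ⟨E, hE, hw⟩ := Pool.Agent.X35.ZW.sum_windows (fun m : ℕ => top F₀ q B (m : ℤ) + top F₀ q B (-(m : ℤ)))
        (fun m => add_nonneg (top_nonneg _ _ _ _) (top_nonneg _ _ _ _)) 1 β hβ0 (by linarith) h2 hv1 hτ hv hθ0 hθ
      refine ⟨B, E, hE, fun α hα hαE _ F hF => ?_⟩
      obtain ⟨i₀, hi₀⟩ := hw α hα hαE
      refine ⟨i₀, fun i hi S t hS => ?_⟩
      have h3 := hi₀ i hi (S.image Int.natAbs) (by
        intro n hn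
        rw [mem_image] at hn
        obtain ⟨d, hd, rfl⟩ := hn
        have h4 := (hS d hd).2
        have h5 : ((d.natAbs : ℕ) : ℝ) = |(d : ℝ)| := by
          rw [Nat.cast_natAbs, Int.cast_abs]
        rw [h5]
        linarith)
      refine le_trans ?_ h3
      have h4 : ∑ d ∈ S, ‖F d (1 + t d * I)‖ ^ q / (2 + |t d|) ^ B ≤ ∑ d ∈ S, top F₀ q B d := by
        apply sum_le_sum
        intro d hd
        have hsq := (hS d hd).1
        have hFd : F d = F₀ d := (huniq d hsq).unique (hF d hsq) (hF₀ d hsq)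
        rw [hFd]
        exact h1 d hsq (t d)
      refine h4.trans ?_
      rw [← sum_fiberwise_of_maps_to (s := S) (t := S.image Int.natAbs) (g := Int.natAbs) (fun d hd => mem_image_of_mem _ hd)]
      apply sum_le_sum
      intro m _
      have h5 : S.filter (fun d => d.natAbs = m) ⊆ {(m : ℤ), -(m : ℤ)} := by
        intro d hd
        rw [mem_filter] at hd
        rw [mem_insert, mem_singleton]
        omega
      refine (sum_le_sum_of_subset_of_nonneg h5 (fun d _ _ => top_nonneg _ _ _ _)).trans ?_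
      by_cases h0 : (m : ℤ) = -(m : ℤ)
      · rw [← h0, pair_eq_singleton, sum_singleton]
        have := top_nonneg F₀ q B (m : ℤ)
        linarith
      · rw [sum_pair h0]
    · refine ⟨0, ∅, by simp, fun α _ _ h => absurd h hg⟩
  choose B E hE1 hE2 using hone
  refine ⟨fun a b => B (a, b), ⋃ ab, E ab, ?_, fun α hα hαE a b hg F hF => ?_⟩
  · rw [dimH_iUnion]
    exact iSup_le hE1
  · exact hE2 (a, b) α hα (fun h => hαE (Set.mem_iUnion.2 ⟨_, h⟩)) hg F hF

end Pool.Agent.Results.MP_21d687_nt.LindelofNearSequences
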