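import Pool.Agent.Results.MP_21d687_nt.LindelofNearSequences
import Pool.Agent.X124.RP.Mean
import Pool.Agent.X283.DA.LogAny

/-!
# The Lindelöf bound for ALL quadratic twists by `d` with `|d|` near a real power or at a denominator

`K` is a multiquadratic field, `F_d` the `L`-function over `K` of the quadratic twist by the squarefree integer `d` of an
elliptic curve `y² = x³ + a x + b` (centre `s = 1`). From the team's `LindelofNearSequences`: `Good a b`: the curve has
`j`-invariant `0` or `1728` or is a quadratic twist of `X₀(11)` or `X₀(14)` (no hypothesis is used for them), or all the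
quadratic twists of the curve are modular.

`AtPowers`, `AtExponents`, `AtDenominators`, `AtApproximations` (of `Pool.Agent.X124.RP.Many`) and `FamFast`,
`FamDenominators` (of `Pool.Agent.X283.DA.LogAny`) are the statements on the sequences: windows of the length of a power
around `t ^ κ_n`, `n ^ t` and denominators, and windows of logarithmic length around `t ^ κ_n`, `α exp κ_n` and
denominators.
-/

set_option autoImplicit false

namespace Pool.Agent.Results.MP_21d687_nt.PowersAndDenominators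

open Finset Complex NumberField Filter
open Pool.Agent.Y19.QT (Indep IsLFunK sqf)
open Pool.Agent.X124.RP (AtPowers AtExponents AtDenominators AtApproximations)
open Pool.Agent.X283.DA (FamFast FamDenominators LogSparse)
open LindelofNearSequences (Good)

/-- For all squarefree `d` with `|d| = m` and all real `t`: `|F_d(1 + i t)| ^ (2 / 2 ^ n) ≤ |d| ^ β (2 + |t|) ^ B`, if the
curve of `c = (a, b)` is good. -/
def PowerBound (K : Type) [Field K] {n : ℕ} (e : Fin n → ℤ) (B : ℤ × ℤ → ℕ) (β : ℝ) (c : ℤ × ℤ) (m : ℕ) : Prop :=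
  Good c.1 c.2 → ∀ d : ℤ, Squarefree d → d.natAbs = m → ∀ F : ℂ → ℂ, IsLFunK K (c.1 * d ^ 2) (c.2 * d ^ 3) (∏ i, e i) F →
    ∀ t : ℝ, ‖F (1 + t * I)‖ ^ ((2 : ℝ) / 2 ^ n) ≤ (m : ℝ) ^ β * (2 + |t|) ^ B c

/-- For all squarefree `d` with `|d| = m` and all real `t`: `|F_d(1 + i t)| ≤ ((log |d|) (2 + |t|)) ^ k'`, if the curve of
`c = (a, b)` is good. -/
def LogBound (K : Type) [Field K] {n : ℕ} (e : Fin n → ℤ) (k' : ℤ × ℤ → ℕ) (c : ℤ × ℤ) (m : ℕ) : Prop :=
  Good c.1 c.2 → ∀ d : ℤ, Squarefree d → d.natAbs = m → ∀ F : ℂ → ℂ, IsLFunK K (c.1 * d ^ 2) (c.2 * d ^ 3) (∏ i, e i) F →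
    ∀ t : ℝ, ‖F (1 + t * I)‖ ≤ (Real.log m * (2 + |t|)) ^ k' c

/-- from bounds for the integers to bounds for their absolute values -/
lemma logSparse_natAbs (P : Set ℕ) (Q : ℤ → Prop) (hPQ : ∀ m ∈ P, ∃ d : ℤ, d.natAbs = m ∧ Q d) (C : ℝ) (k : ℕ) (X₀ : ℕ)
    (h : ∀ (X : ℕ) (S : Finset ℤ), X₀ ≤ X → (∀ d ∈ S, |d| ≤ X ∧ (X : ℝ) < (d.natAbs : ℝ) ^ 2 ∧ Q d) →
      (S.card : ℝ) ≤ C * X / Real.log X ^ k) : LogSparse P k := by
  classical
  -- `√X + 1 ≤ X / (log X) ^ k` for large `X`
  have hlim : ∀ᶠ X : ℕ in atTop, (Real.log X) ^ k * (2 * √(X : ℝ) + 1) ≤ X := by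
    have h1 := (isLittleO_log_rpow_rpow_atTop (k : ℝ) (show (0 : ℝ) < 1 / 4 by norm_num)).bound (show (0 : ℝ) < 1 / 3 by norm_num)
    have h2 := tendsto_natCast_atTop_atTop (R := ℝ) |>.eventually h1
    filter_upwards [h2, eventually_ge_atTop 3] with X hX hX3
    have hX3r : (3 : ℝ) ≤ X := by exact_mod_cast hX3
    have hX0 : (0 : ℝ) < X := by linarith
    have hlog : 0 ≤ Real.log X := Real.log_nonneg (by linarith)
    rw [Real.rpow_natCast, Real.norm_of_nonneg (by positivity), Real.norm_of_nonneg (by positivity)] at hX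
    have e1 : √(X : ℝ) = (X : ℝ) ^ (1 / 2 : ℝ) := Real.sqrt_eq_rpow _
    have h3 : (1 : ℝ) ≤ (X : ℝ) ^ (1 / 2 : ℝ) := Real.one_le_rpow (by linarith) (by norm_num)
    have h4 : (X : ℝ) ^ (1 / 4 : ℝ) * (X : ℝ) ^ (1 / 2 : ℝ) ≤ X := by
      rw [← Real.rpow_add hX0]
      calc (X : ℝ) ^ (1 / 4 + 1 / 2 : ℝ) ≤ (X : ℝ) ^ (1 : ℝ) := Real.rpow_le_rpow_of_exponent_le (by linarith) (by norm_num)
        _ = X := Real.rpow_one _
    calc (Real.log X) ^ k * (2 * √(X : ℝ) + 1) ≤ (1 / 3 * (X : ℝ) ^ (1 / 4 : ℝ)) * (3 * (X : ℝ) ^ (1 / 2 : ℝ)) := by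
          apply mul_le_mul hX _ (by positivity) (by positivity)
          rw [e1]
          linarith
      _ = (X : ℝ) ^ (1 / 4 : ℝ) * (X : ℝ) ^ (1 / 2 : ℝ) := by ring
      _ ≤ X := h4
  obtain ⟨X₁, hX₁⟩ := eventually_atTop.1 hlim
  refine LogSparse.of_eventually (|C| + 1) (max (max X₀ X₁) 3) fun X hX => ?_
  have hX0' : X₀ ≤ X := ((le_max_left _ _).trans (le_max_left _ _)).trans hX
  have hX1' : X₁ ≤ X := ((le_max_right _ _).trans (le_max_left _ _)).trans hX
  have hX3 : 3 ≤ X := (le_max_right _ _).trans hX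
  have hX3r : (3 : ℝ) ≤ X := by exact_mod_cast hX3
  have hlog : 0 < Real.log X := Real.log_pos (by linarith)
  have hlk : 0 < Real.log X ^ k := by positivity
  -- the large elements
  set T : Finset ℕ := (range (X + 1)).filter (fun m => m ∈ P ∧ (X : ℝ) < (m : ℝ) ^ 2) with hT
  have hex : ∀ m : ℕ, ∃ d : ℤ, m ∈ P → d.natAbs = m ∧ Q d := by
    intro m
    by_cases hm : m ∈ P
    · obtain ⟨d, hd⟩ := hPQ m hm
      exact ⟨d, fun _ => hd⟩
    · exact ⟨0, fun h => absurd h hm⟩
  choose g hg using hex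
  have hcardT : (T.card : ℝ) ≤ C * X / Real.log X ^ k := by
    have h1 := h X (T.image g) hX0' (by
      intro d hd
      rw [mem_image] at hd
      obtain ⟨m, hm, rfl⟩ := hd
      rw [hT, mem_filter, mem_range] at hm
      obtain ⟨h2, h3⟩ := hg m hm.2.1
      refine ⟨?_, ?_, h3⟩
      · rw [Int.abs_eq_natAbs, h2]
        exact_mod_cast (by omega : m ≤ X)
      · rw [h2]
        exact hm.2.2)
    rw [card_image_of_injOn] at h1
    · exact h1
    · intro m hm m' hm' hmm
      rw [hT, coe_filter] at hm hm'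
      have h2 := (hg m hm.2.1).1
      have h3 := (hg m' hm'.2.1).1
      rw [← h2, ← h3, hmm]
  have hsub : {t : ℕ | t ∈ P ∧ t ≤ X} ⊆ ((T ∪ range (Nat.sqrt X + 1) : Finset ℕ) : Set ℕ) := by
    rintro m ⟨h1, h2⟩
    rw [coe_union, Set.mem_union, mem_coe, mem_coe]
    by_cases h3 : (X : ℝ) < (m : ℝ) ^ 2
    · left
      rw [hT, mem_filter, mem_range]
      exact ⟨by omega, h1, h3⟩
    · right
      rw [mem_range]
      have h4 : (m : ℝ) ^ 2 ≤ X := not_lt.1 h3
      have h5 : m ^ 2 ≤ X := by exact_mod_cast h4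
      have h6 : m ≤ Nat.sqrt X := Nat.le_sqrt'.2 h5
      omega
  have h1 := Set.ncard_le_ncard hsub (Finset.finite_toSet _)
  rw [Set.ncard_coe_finset] at h1
  have h2 : ((T ∪ range (Nat.sqrt X + 1)).card : ℝ) ≤ T.card + (Nat.sqrt X + 1 : ℕ) := by
    have := card_union_le T (range (Nat.sqrt X + 1))
    rw [card_range] at this
    exact_mod_cast this
  have h3 : ((Nat.sqrt X + 1 : ℕ) : ℝ) ≤ 2 * √(X : ℝ) + 1 := by
    push_cast
    have h4 : ((Nat.sqrt X : ℕ) : ℝ) ≤ √(X : ℝ) := Real.nat_sqrt_le_real_sqrt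
    have h5 : 0 ≤ √(X : ℝ) := Real.sqrt_nonneg _
    linarith
  have h4 := hX₁ X hX1'
  have h5 : 2 * √(X : ℝ) + 1 ≤ X / Real.log X ^ k := by
    rw [le_div_iff₀ hlk]
    linarith
  have h6 : C * X / Real.log X ^ k ≤ |C| * X / Real.log X ^ k := by
    apply div_le_div_of_nonneg_right _ hlk.le
    exact mul_le_mul_of_nonneg_right (le_abs_self C) (by linarith)
  have e : (|C| + 1) * X * (Real.log X) ^ (-(k : ℝ)) = |C| * X / Real.log X ^ k + X / Real.log X ^ k := by
    rw [Real.rpow_neg hlog.le, Real.rpow_natCast]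
    field_simp
  rw [e]
  calc ({t : ℕ | t ∈ P ∧ t ≤ X}.ncard : ℝ) ≤ ((T ∪ range (Nat.sqrt X + 1)).card : ℝ) := by exact_mod_cast h1
    _ ≤ T.card + (Nat.sqrt X + 1 : ℕ) := h2
    _ ≤ |C| * X / Real.log X ^ k + X / Real.log X ^ k := by linarith

/-- Let `K = ℚ(√e_1, ..., √e_n)` be a multiquadratic field of degree `2 ^ n` (`K = ℚ` for `n = 0`). For `c = (a, b)` with
`Good a b` and squarefree `d` let `F_d` be the `L`-function over `K` of the twist by `d` of the curve
`y² = x³ + a x + b`.

(1) There are numbers `B(c)` such that for every `0 < β ≤ 1` the bound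
`|F_d(1 + i t)| ^ (2 / 2 ^ n) ≤ |d| ^ β (2 + |t|) ^ B(c)` holds, for all real `t` and ALL squarefree `d` for which `|d|` is
near real powers or at denominators, for all good curves at once: `AtPowers`, `AtExponents`, `AtDenominators`,
`AtApproximations` with the exponent `s = 1 - β`.

(2) For all `k ≥ 1` there are numbers `k'(c)` such that the bound `|F_d(1 + i t)| ≤ ((log |d|) (2 + |t|)) ^ k'(c)` holds, for
all real `t` and ALL squarefree `d` for which `|d|` is in windows of logarithmic length around fast sequences, or at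
denominators, for all good curves at once: `FamFast`, `FamDenominators` with the exponent `k`. -/
theorem result (n : ℕ) (e : Fin n → ℤ) (he : Indep e) (K : Type) [Field K] [NumberField K] (x : Fin n → K)
    (hx : ∀ i, x i ^ 2 = (e i : K)) (hadj : IntermediateField.adjoin ℚ (Set.range x) = ⊤) :
    (∃ B : ℤ × ℤ → ℕ, ∀ β : ℝ, 0 < β → β ≤ 1 →
      AtPowers (PowerBound K e B β) (1 - β) ∧ AtExponents (PowerBound K e B β) (1 - β) ∧
      AtDenominators (PowerBound K e B β) (1 - β) ∧ AtApproximations (PowerBound K e B β) (1 - β)) ∧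
    ∀ k : ℕ, 1 ≤ k → ∃ k' : ℤ × ℤ → ℕ,
      FamFast (LogBound K e k') k ∧ FamDenominators (LogBound K e k') k := by
  classical
  -- one curve
  have hcurve : ∀ c : ℤ × ℤ, ∃ B : ℕ, (∀ β : ℝ, 0 < β → β ≤ 1 →
        Pool.Agent.X283.DA.Sparse {m | ¬ PowerBound K e (fun _ => B) β c m} (1 - β)) ∧
      ∀ k : ℕ, ∃ k' : ℕ, LogSparse {m | ¬ LogBound K e (fun _ => k') c m} k := by
    rintro ⟨a, b⟩
    by_cases hg : Good a b
    · obtain ⟨huniq, hlaw⟩ := LindelofNearSequences.law hg n e he K x hx hadj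
      have hex : ∀ d : ℤ, ∃ G : ℂ → ℂ, Squarefree d → IsLFunK K (a * d ^ 2) (b * d ^ 3) (∏ i, e i) G := by
        intro d
        by_cases hd : Squarefree d
        · obtain ⟨G, hG, _⟩ := huniq d hd
          exact ⟨G, fun _ => hG⟩
        · exact ⟨0, fun h => absurd h hd⟩
      choose F₀ hF₀ using hex
      obtain ⟨⟨C, A, B, hC, _⟩, hlog⟩ := hlaw F₀ hF₀
      obtain ⟨h1, h2⟩ := LindelofNearSequences.one F₀ ((2 : ℝ) / 2 ^ n) C A B hC
      refine ⟨B, fun β hβ hβ1 => ?_, fun k => ?_⟩
      · have h3 := Pool.Agent.X124.RP.sparse_of_mean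
          (fun m : ℕ => LindelofNearSequences.top F₀ ((2 : ℝ) / 2 ^ n) B (m : ℤ) +
            LindelofNearSequences.top F₀ ((2 : ℝ) / 2 ^ n) B (-(m : ℤ)))
          (fun m => add_nonneg (LindelofNearSequences.top_nonneg _ _ _ _) (LindelofNearSequences.top_nonneg _ _ _ _))
          h2 hβ.le hβ1
        refine h3.mono' fun m hm hcon => hm ?_
        intro _ d hd hdm F hF t
        have hcon' : LindelofNearSequences.top F₀ ((2 : ℝ) / 2 ^ n) B (m : ℤ) +
            LindelofNearSequences.top F₀ ((2 : ℝ) / 2 ^ n) B (-(m : ℤ)) ≤ (m : ℝ) ^ β := hcon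
        have hFd : F = F₀ d := (huniq d hd).unique hF (hF₀ d hd)
        have h4 := h1 d hd t
        have h5 : LindelofNearSequences.top F₀ ((2 : ℝ) / 2 ^ n) B d ≤ (m : ℝ) ^ β := by
          have h6 := LindelofNearSequences.top_nonneg F₀ ((2 : ℝ) / 2 ^ n) B (m : ℤ)
          have h7 := LindelofNearSequences.top_nonneg F₀ ((2 : ℝ) / 2 ^ n) B (-(m : ℤ))
          have h8 : d = (m : ℤ) ∨ d = -(m : ℤ) := by omega
          rcases h8 with h8 | h8 <;> rw [h8] <;> linarith
        have h6 := h4.trans h5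
        unfold LindelofNearSequences.val at h6
        rw [div_le_iff₀ (by positivity)] at h6
        rw [hFd]
        exact h6
      · obtain ⟨C', k₁, hk⟩ := hlog k
        refine ⟨2 * k₁, ?_⟩
        refine logSparse_natAbs _ (fun d => Squarefree d ∧ ∃ t : ℝ,
          (Real.log d.natAbs * (2 + |t|)) ^ (2 * k₁) < ‖F₀ d (1 + t * I)‖) ?_ C' k 9 ?_
        · intro m hm
          have hm' : ¬ LogBound K e (fun _ => 2 * k₁) (a, b) m := hm
          unfold LogBound at hm'
          push Not at hm'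
          obtain ⟨_, d, hd, hdm, F, hF, t, ht⟩ := hm'
          refine ⟨d, hdm, hd, t, ?_⟩
          have hFd : F = F₀ d := (huniq d hd).unique hF (hF₀ d hd)
          rw [hdm, ← hFd]
          exact ht
        · intro X S hX hS
          refine hk X S (by omega) (fun d hd => ?_) fun d hd => ?_
          · rw [Pool.Agent.Y19.QT.mem_sqf]
            exact ⟨(hS d hd).1, (hS d hd).2.2.1⟩
          · obtain ⟨h3, h4, h5, t, ht⟩ := hS d hd
            refine ⟨t, lt_of_le_of_lt ?_ ht⟩
            have hX9 : (9 : ℝ) ≤ X := by exact_mod_cast hX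
            have hm3 : (3 : ℝ) ≤ d.natAbs := by
              by_contra hcon
              have h6 : (0 : ℝ) ≤ d.natAbs := Nat.cast_nonneg _
              nlinarith
            have hl1 : 1 ≤ Real.log d.natAbs := by
              rw [Real.le_log_iff_exp_le (by linarith)]
              exact Real.exp_one_lt_d9.le.trans (by linarith)
            have hlX : Real.log X ≤ 2 * Real.log d.natAbs := by
              have h6 := Real.log_le_log (by linarith) h4.le
              rwa [Real.log_pow] at h6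
            have hlX0 : 0 ≤ Real.log X := Real.log_nonneg (by linarith)
            have ht0 : (2 : ℝ) ≤ 2 + |t| := by
              have := abs_nonneg t
              linarith
            have h7 : Real.log X * (2 + |t|) ≤ (Real.log d.natAbs * (2 + |t|)) ^ 2 := by
              have h8 : 2 ≤ Real.log d.natAbs * (2 + |t|) := by nlinarith
              have h9 : Real.log X * (2 + |t|) ≤ 2 * (Real.log d.natAbs * (2 + |t|)) := by
                have := mul_le_mul_of_nonneg_right hlX (show (0 : ℝ) ≤ 2 + |t| by linarith)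
                linarith
              nlinarith
            rw [pow_mul]
            exact pow_le_pow_left₀ (mul_nonneg hlX0 (by linarith)) h7 _
    · refine ⟨0, fun β hβ hβ1 => ?_, fun k => ⟨0, ?_⟩⟩
      · have h0 : {m | ¬ PowerBound K e (fun _ => 0) β (a, b) m} = (∅ : Set ℕ) := by
          ext m
          simp only [Set.mem_setOf_eq, Set.mem_empty_iff_false, iff_false, not_not]
          exact fun h => absurd h hg
        rw [h0]
        intro ε hε
        refine ⟨0, fun X hX => ⟨by simp, by simp⟩⟩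
      · have h0 : {m | ¬ LogBound K e (fun _ => 0) (a, b) m} = (∅ : Set ℕ) := by
          ext m
          simp only [Set.mem_setOf_eq, Set.mem_empty_iff_false, iff_false, not_not]
          exact fun h => absurd h hg
        rw [h0]
        exact ⟨0, le_rfl, fun X hX => by simp⟩
  choose B hB1 hB2 using hcurve
  refine ⟨⟨B, fun β hβ hβ1 => Pool.Agent.X124.RP.many (PowerBound K e B β) (by linarith) fun c => hB1 c β hβ hβ1⟩,
    fun k hk => ?_⟩
  choose k' hk' using fun c => hB2 c k
  refine ⟨k', Pool.Agent.X283.DA.pack_fam (LogBound K e k') (by exact_mod_cast hk) fun c b hb hbk => ?_⟩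
  exact LogSparse.mono (hk' c) hbk.le

end Pool.Agent.Results.MP_21d687_nt.PowersAndDenominators
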